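import Pool.Agent.T9h69.RG.Main

/-!
# Eigenvectors of the lift of a Jacobi matrix on the red-green tree vanish at green vertices

The universal cover of the complete bipartite graph `K_{r,g}` (`r` red and `g` green vertices) is
a tree `T` with a covering map `pr` onto `K_{r,g}`.  The theorem is proved for every such pair.
The red vertices are `Sum.inl i`, the green ones `Sum.inr j`.
-/

namespace Pool.Agent.Results.MP_1155ce_an.GreenZero

open SimpleGraph Pool.Agent.T9h69.RG

/-- Let `r > g ≥ 2`.  For every Jacobi matrix `(b, a)` on `K_{r,g}`, every eigenvector `u` in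
`ℓ²(T)` of its lift to the universal cover `T` vanishes at every green vertex. -/
theorem result {r g : ℕ} (hg : 2 ≤ g) (hrg : g < r)
    (b : Fin r ⊕ Fin g → ℝ) (a : Sym2 (Fin r ⊕ Fin g) → ℝ)
    (ha : ∀ e ∈ (completeBipartiteGraph (Fin r) (Fin g)).edgeSet, 0 < a e)
    {V : Type*} {T : SimpleGraph V} (hT : T.IsTree) {pr : V → Fin r ⊕ Fin g}
    (hpr : IsCovering T (completeBipartiteGraph (Fin r) (Fin g)) pr)
    (lam : ℝ) (u : V → ℂ) (hu : Memℓp u 2) (hH : ∀ x, liftOp T pr b a u x = lam * u x)
    (x : V) (j : Fin g) (hx : pr x = Sum.inr j) : u x = 0 :=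
  main hg hrg hT hpr b a ha lam hu hH hx

end Pool.Agent.Results.MP_1155ce_an.GreenZero
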